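import Pool.Agent.N430.CV.L4

/-!
# The order of the Tate-Shafarevich group from above: a one-sided central limit theorem

Let `F` be a finite field of odd characteristic with `q` elements. The `L`-function of an elliptic curve
`E : y² = x³ + A x + B` over `K = F(t)` is a polynomial `∏ (1 - α i T)` with `|α i| = q` (Grothendieck,
Deligne). If its value at the central point `T = q⁻¹` is not zero, then the group `Ш(E/K)` is finite and

  `#Ш(E/K) · ∏ c_v · q = L(E, q⁻¹) · #E(K)_tors² · q ^ χ`, `12 χ` the degree of the minimal discriminant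

(Tate, Milne). We prove that for every real `x` and `ε > 0`, for all `d ≥ d₀(x, ε)` and for ALL finite fields
`F` of odd characteristic, the proportion of the `E` with `deg A < 4 d`, `deg B < 6 d` and

  `L(E, q⁻¹) ≥ exp (x √(log d)) / √d`

is at most `1 - Φ(x) + ε`, `Φ` the normal distribution function, as predicted by the conjecture of Keating
and Snaith; so for all but this proportion of the `E` either `L(E, q⁻¹) = 0` or

  `#Ш(E/K) · ∏ c_v / #E(K)_tors² < q ^ (χ - 1) · exp (x √(log d)) / √d`.

The same one-sided central limit theorem is proved for the central values of the curves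
`y² = f(x) + A x + B`, `deg A, deg B < N`, uniformly in the monic cubic polynomial `f` over `F[t]`.

The facts about the `L`-function enter through the structure `LFunction`, the formula of Tate and Milne
through the structure `ShaData`.
-/

set_option autoImplicit false

namespace Pool.Agent.Results.MP_c1fa1d_nt.OrderOfShaFromAbove

open Polynomial

/-- The affine points of the curve `y² = f(x) + A x + B` over the residue ring `F[t] ⧸ P`. -/
def affinePoints {F : Type} [Field F] (f : F[X][X]) (A B P : F[X]) :
    Set ((F[X] ⧸ Ideal.span {P}) × (F[X] ⧸ Ideal.span {P})) :=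
  {z | z.2 ^ 2 = (f.map (Ideal.Quotient.mk (Ideal.span {P}))).eval z.1 +
    Ideal.Quotient.mk (Ideal.span {P}) A * z.1 + Ideal.Quotient.mk (Ideal.span {P}) B}

/-- The trace of Frobenius of the curve `y² = f(x) + A x + B` at the place `P`, `f` a monic cubic
polynomial: the number of elements of the residue field minus the number of affine points. -/
noncomputable def frobeniusTrace {F : Type} [Field F] (f : F[X][X]) (A B P : F[X]) : ℝ :=
  (Nat.card F : ℝ) ^ P.natDegree - (affinePoints f A B P).ncard

/-- The reduction modulo `P` is smooth: `f(x) + A x + B` has no double root in the residue field (a double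
root of a cubic polynomial over a finite field lies in the field). -/
def IsGood {F : Type} [Field F] (f : F[X][X]) (A B P : F[X]) : Prop :=
  ∀ x : F[X] ⧸ Ideal.span {P}, ¬ ((f.map (Ideal.Quotient.mk (Ideal.span {P}))).eval x +
    Ideal.Quotient.mk (Ideal.span {P}) A * x + Ideal.Quotient.mk (Ideal.span {P}) B = 0 ∧
    (derivative (f.map (Ideal.Quotient.mk (Ideal.span {P})))).eval x +
      Ideal.Quotient.mk (Ideal.span {P}) A = 0)

/-- The monic irreducible polynomials of degree `e`. -/
def places (F : Type) [Field F] (e : ℕ) : Set F[X] := {P | P.Monic ∧ Irreducible P ∧ P.natDegree = e}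

/-- The `L`-function of the elliptic curve `y² = f(x) + A x + B` over `F(t)`, `f` a monic cubic polynomial.
It is the polynomial `∏ (1 - α i T)`, and equal to the product of the inverses of the local factors
`∏ (1 - loc P i T^(deg P))` at the finite places and `∏ (1 - inf i T)` at infinity; `formula` is the
logarithmic derivative of this identity. -/
structure LFunction {F : Type} [Field F] (f : F[X][X]) (A B : F[X]) (K : ℝ) where
  /-- the degree of the `L`-function -/
  D : ℕ
  /-- the reciprocal zeros of the `L`-function -/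
  α : Fin D → ℂ
  /-- the eigenvalues of Frobenius at the finite places (zero, if the local factor has smaller degree) -/
  loc : F[X] → Fin 2 → ℂ
  /-- the eigenvalues at the place at infinity -/
  inf : Fin 2 → ℂ
  size : (D : ℝ) ≤ K
  norm_α : ∀ i, ‖α i‖ = Nat.card F
  norm_loc : ∀ P, P.Monic → Irreducible P → ∀ i, ‖loc P i‖ ≤ √(Nat.card F) ^ P.natDegree
  norm_inf : ∀ i, ‖inf i‖ ≤ √(Nat.card F)
  sum_loc : ∀ P, P.Monic → Irreducible P → IsGood f A B P → ∑ i, loc P i = (frobeniusTrace f A B P : ℂ)
  prod_loc : ∀ P, P.Monic → Irreducible P → IsGood f A B P →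
    loc P 0 * loc P 1 = (Nat.card F : ℂ) ^ P.natDegree
  formula : ∀ n : ℕ, 1 ≤ n → ∑ i, α i ^ n =
    -(∑ e ∈ n.divisors, ∑ᶠ P ∈ places F e, (e : ℂ) * ∑ i, loc P i ^ (n / e) + ∑ i, inf i ^ n)

/-- The absolute value of the `L`-function at the central point `T = q⁻¹`. -/
noncomputable def LFunction.centralValue {F : Type} [Field F] {f : F[X][X]} {A B : F[X]} {K : ℝ}
    (E : LFunction f A B K) : ℝ := ‖∏ i, (1 - E.α i / Nat.card F)‖

/-- The `L`-function of `E : y² = x³ + A x + B` and the numbers in the formula of Tate and Milne: the order of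
the Tate-Shafarevich group (if the central value is not zero), the product of the Tamagawa numbers, the order
of the torsion group and one twelfth of the degree of the minimal discriminant. -/
structure ShaData {F : Type} [Field F] (A B : F[X]) (K : ℝ) extends LFunction (X ^ 3 : F[X][X]) A B K where
  sha : ℕ
  tamagawa : ℕ
  torsion : ℕ
  height : ℕ
  formula_sha : toLFunction.centralValue ≠ 0 →
    (sha : ℝ) * tamagawa * Nat.card F = toLFunction.centralValue * torsion ^ 2 * (Nat.card F : ℝ) ^ height

/-- The probability that a standard normal random variable is at least `x`. -/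
noncomputable def normalTail (x : ℝ) : ℝ := (ProbabilityTheory.gaussianReal 0 1 (Set.Ici x)).toReal

/-- the translation of the data -/
noncomputable def LFunction.toLD {F : Type} [Field F] [Fintype F] {f : F[X][X]} {A B : F[X]} {K : ℝ}
    (E : LFunction f A B K) : Pool.Agent.N430.CV.LD f A B K where
  D := E.D
  α := E.α
  loc := E.loc
  inf := E.inf
  hD := E.size
  hα := fun i => by rw [E.norm_α i, Nat.card_eq_fintype_card]
  hloc := fun P h1 h2 i => by
    have := E.norm_loc P h1 h2 i
    rwa [Nat.card_eq_fintype_card] at this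
  hinf := fun i => by
    have := E.norm_inf i
    rwa [Nat.card_eq_fintype_card] at this
  htr := fun P h1 h2 h3 => by
    rw [E.sum_loc P h1 h2 h3]
    unfold frobeniusTrace
    rw [Nat.card_eq_fintype_card]
    rfl
  hpr := fun P h1 h2 h3 => by
    rw [E.prod_loc P h1 h2 h3, Nat.card_eq_fintype_card]
  hform := fun n hn => by
    classical
    rw [E.formula n hn]
    congr 2
    refine Finset.sum_congr rfl fun e _ => ?_
    have h1 : places F e = ((Pool.Agent.N430.BP.FF.IR F e : Finset F[X]) : Set F[X]) := by
      ext P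
      unfold places
      rw [Finset.mem_coe, Pool.Agent.N430.BP.FF.mem_IR]
      rfl
    rw [h1, finsum_mem_coe_finset]

lemma value_eq {F : Type} [Field F] [Fintype F] {f : F[X][X]} {A B : F[X]} {K : ℝ}
    (E : LFunction f A B K) : E.centralValue = E.toLD.val := by
  unfold LFunction.centralValue Pool.Agent.N430.CV.LD.val
  rw [norm_prod, Nat.card_eq_fintype_card]
  rfl

lemma tail_ge (x : ℝ) : 1 - Pool.Agent.N430.CLT.Phi x ≤ normalTail x := by
  unfold Pool.Agent.N430.CLT.Phi normalTail
  have h1 : (1 : ENNReal) ≤ ProbabilityTheory.gaussianReal 0 1 (Set.Iic x) +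
      ProbabilityTheory.gaussianReal 0 1 (Set.Ici x) := by
    rw [← MeasureTheory.measure_univ (μ := ProbabilityTheory.gaussianReal 0 1)]
    refine le_trans (MeasureTheory.measure_mono ?_) (MeasureTheory.measure_union_le _ _)
    intro y _
    rcases le_total y x with h | h
    · exact Or.inl h
    · exact Or.inr h
  have h2 := ENNReal.toReal_mono (ENNReal.add_ne_top.2
    ⟨MeasureTheory.measure_ne_top _ _, MeasureTheory.measure_ne_top _ _⟩) h1
  rw [ENNReal.toReal_add (MeasureTheory.measure_ne_top _ _) (MeasureTheory.measure_ne_top _ _),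
    ENNReal.toReal_one] at h2
  linarith

lemma threshold {d : ℕ} (hd : 1 ≤ d) (x : ℝ) :
    Real.exp (x * √(Real.log d)) / √d = Real.exp (x * √(Real.log d) - Real.log d / 2) := by
  have hd0 : (0 : ℝ) < d := by exact_mod_cast hd
  rw [Real.exp_sub]
  congr 1
  rw [Real.exp_half, Real.exp_log hd0]

lemma count_le {T : Type} [Fintype T] (p : T → Prop) {b : ℝ}
    (h : (∑ v : T, (open Classical in if p v then (1 : ℝ) else 0)) ≤ b) : ({v | p v}.ncard : ℝ) ≤ b := by
  classical
  refine le_trans (le_of_eq ?_) h
  have h3 : {v | p v} = ((Finset.univ.filter fun v => p v : Finset T) : Set T) := by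
    ext v
    simp
  rw [h3, Set.ncard_coe_finset, Finset.card_eq_sum_ones]
  push_cast
  rw [Finset.sum_filter]

/-- **The one-sided central limit theorem.** -/
theorem result (x ε : ℝ) (hε : 0 < ε) :
    (∃ d₀ : ℕ, ∀ (F : Type) [Field F] [Finite F], ringChar F ≠ 2 → ∀ d : ℕ, d₀ ≤ d →
      ∀ S : Finset (F[X] × F[X]), (∀ v ∈ S, v.1.degree < 4 * d ∧ v.2.degree < 6 * d) →
      ∀ (E : ∀ v : S, ShaData v.1.1 v.1.2 (12 * d)),
        ({v | Real.exp (x * √(Real.log d)) / √d ≤ (E v).centralValue}.ncard : ℝ) ≤
          (normalTail x + ε) * (Nat.card F : ℝ) ^ (10 * d) ∧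
        ({v | (E v).centralValue ≠ 0 ∧
          Real.exp (x * √(Real.log d)) / √d * (E v).torsion ^ 2 * (Nat.card F : ℝ) ^ (E v).height ≤
            (E v).sha * (E v).tamagawa * Nat.card F ∧ (E v).torsion ≠ 0}.ncard : ℝ) ≤
          (normalTail x + ε) * (Nat.card F : ℝ) ^ (10 * d)) ∧
    (∀ κ : ℝ, 1 ≤ κ → ∃ N₀ : ℕ, ∀ (F : Type) [Field F] [Finite F], ringChar F ≠ 2 →
      ∀ N : ℕ, N₀ ≤ N → ∀ f : F[X][X], f.Monic → f.natDegree = 3 →
      ∀ S : Finset (F[X] × F[X]), (∀ v ∈ S, v.1.degree < N ∧ v.2.degree < N) →
      ∀ (E : ∀ v : S, LFunction f v.1.1 v.1.2 (κ * N)),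
        ({v | Real.exp (x * √(Real.log N)) / √N ≤ (E v).centralValue}.ncard : ℝ) ≤
          (normalTail x + ε) * (Nat.card F : ℝ) ^ (2 * N)) := by
  classical
  refine ⟨?_, fun κ hκ => ?_⟩
  · obtain ⟨d₀, H⟩ := Pool.Agent.N430.CV.clt_ell x hε
    refine ⟨max d₀ 1, fun F _ _ h2 d hd S hS E => ?_⟩
    have : Fintype F := Fintype.ofFinite F
    have hd1 : 1 ≤ d := (le_max_right _ _).trans hd
    have h1 := H F h2 d ((le_max_left _ _).trans hd) S (fun v => v.1) Subtype.val_injective
      (fun v => hS v.1 v.2) (fun v => (E v).toLFunction.toLD)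
    have h3 : ({v | Real.exp (x * √(Real.log d)) / √d ≤ (E v).centralValue}.ncard : ℝ) ≤
        (normalTail x + ε) * (Nat.card F : ℝ) ^ (10 * d) := by
      apply count_le
      rw [Nat.card_eq_fintype_card]
      refine le_trans (le_of_eq ?_) (h1.trans (mul_le_mul_of_nonneg_right (by linarith [tail_ge x])
        (by positivity)))
      refine Finset.sum_congr rfl fun v _ => ?_
      rw [threshold hd1, value_eq]
    refine ⟨h3, le_trans ?_ h3⟩
    have h4 : {v | (E v).centralValue ≠ 0 ∧
        Real.exp (x * √(Real.log d)) / √d * (E v).torsion ^ 2 * (Nat.card F : ℝ) ^ (E v).height ≤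
          (E v).sha * (E v).tamagawa * Nat.card F ∧ (E v).torsion ≠ 0} ⊆
        {v | Real.exp (x * √(Real.log d)) / √d ≤ (E v).centralValue} := by
      rintro v ⟨g1, g2, g3⟩
      rw [(E v).formula_sha g1] at g2
      have hq : (0 : ℝ) < Nat.card F := by exact_mod_cast Nat.card_pos
      have ht : (0 : ℝ) < (E v).torsion := by exact_mod_cast Nat.pos_of_ne_zero g3
      rw [mul_assoc, mul_assoc] at g2
      exact le_of_mul_le_mul_right g2 (by positivity)
    exact_mod_cast Set.ncard_le_ncard h4 (Set.toFinite _)
  · obtain ⟨N₀, H⟩ := Pool.Agent.N430.CV.clt_family hκ x hε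
    refine ⟨max N₀ 1, fun F _ _ h2 N hN f hf hfd S hS E => ?_⟩
    have : Fintype F := Fintype.ofFinite F
    have hN1 : 1 ≤ N := (le_max_right _ _).trans hN
    have h1 := H F h2 f hf hfd N ((le_max_left _ _).trans hN) S
      (fun v => (⟨v.1.1, mem_degreeLT.2 (hS v.1 v.2).1⟩,
      ⟨v.1.2, mem_degreeLT.2 (hS v.1 v.2).2⟩)) (by
        intro v w hvw
        apply Subtype.ext
        exact Prod.ext (congrArg (fun z => (z.1 : F[X])) hvw) (congrArg (fun z => (z.2 : F[X])) hvw))
      (fun v => (E v).toLD)
    apply count_le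
    rw [Nat.card_eq_fintype_card]
    refine le_trans (le_of_eq ?_) (h1.trans (mul_le_mul_of_nonneg_right (by linarith [tail_ge x])
      (by positivity)))
    refine Finset.sum_congr rfl fun v _ => ?_
    rw [threshold hN1, value_eq]

end Pool.Agent.Results.MP_c1fa1d_nt.OrderOfShaFromAbove
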